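import Pool.Agent.H964R2.Disc.Main
import Pool.Agent.Helper819.Gr.M1

/-!
Existence of the discriminant.
-/

open MvPolynomial Pool.Agent.Helper56.Disc Matrix

namespace Pool.Agent.H964R2.Disc

noncomputable section

open Pool.Agent.Helper819.Gr (subst subst_subst subst_one subst_homog map_subst eval_subst
  pderiv_subst)

variable {m e : ℕ}

/-- the base point -/
def bp (m : ℕ) : Fin (m + 1) → ℂ := Pi.single (Fin.last m) 1

theorem eval_bp {g : MvPolynomial (Fin (m + 1)) ℂ} (hg : g.IsHomogeneous e) :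
    eval (bp m) g = coeff (Finsupp.single (Fin.last m) e) g := by
  rw [eval_eq', Finset.sum_eq_single (Finsupp.single (Fin.last m) e)]
  · rw [Finset.prod_eq_one, mul_one]
    intro i _
    unfold bp
    refine Fin.lastCases ?_ (fun j => ?_) i
    · rw [Pi.single_eq_same, one_pow]
    · rw [Finsupp.single_eq_of_ne (castSucc_ne_last j), pow_zero]
  · intro α hα hne
    rw [Finset.prod_eq_zero_iff.mpr, mul_zero]
    have h5 : α.degree = e := by
      by_contra h5
      exact (mem_support_iff.mp hα) (hg.coeff_eq_zero h5)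
    have h6 : ∃ i : Fin m, α i.castSucc ≠ 0 := by
      by_contra hcon
      push Not at hcon
      apply hne
      rw [Finsupp.degree_eq_sum, Fin.sum_univ_castSucc, Finset.sum_eq_zero fun i _ => hcon i,
        zero_add] at h5
      ext i
      refine Fin.lastCases ?_ (fun j => ?_) i
      · rw [Finsupp.single_eq_same, h5]
      · rw [Finsupp.single_eq_of_ne (castSucc_ne_last j), hcon j]
    obtain ⟨i, hi⟩ := h6
    refine ⟨i.castSucc, Finset.mem_univ _, ?_⟩
    unfold bp
    rw [Pi.single_eq_of_ne (castSucc_ne_last i), zero_pow hi]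
  · intro h
    rw [notMem_support_iff.mp h, zero_mul]

theorem exists_single_of_degree_one {β : Fin (m + 1) →₀ ℕ} (h : β.degree = 1) :
    ∃ i, β = Finsupp.single i 1 := by
  have h1 : β ≠ 0 := by
    rintro rfl
    rw [map_zero] at h
    exact zero_ne_one h
  obtain ⟨i, hi⟩ := Finsupp.ne_iff.mp h1
  have h2 : Finsupp.single i 1 ≤ β := by
    rw [Finsupp.single_le_iff]
    exact Nat.one_le_iff_ne_zero.mpr hi
  have h3 := congrArg Finsupp.degree (tsub_add_cancel_of_le h2)
  rw [map_add, Finsupp.degree_single, h] at h3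
  have h4 : β - Finsupp.single i 1 = 0 := (Finsupp.degree_eq_zero_iff _).mp (by omega)
  refine ⟨i, ?_⟩
  rw [← tsub_add_cancel_of_le h2, h4, zero_add]

theorem exists_matrix {z : Fin (m + 1) → ℂ} (hz : z ≠ 0) :
    ∃ h : Matrix (Fin (m + 1)) (Fin (m + 1)) ℂ, h.det ≠ 0 ∧ h.mulVec (bp m) = z := by
  obtain ⟨j, hj⟩ := Function.ne_iff.mp hz
  let σ : Equiv.Perm (Fin (m + 1)) := Equiv.swap j (Fin.last m)
  let A : Matrix (Fin (m + 1)) (Fin (m + 1)) ℂ := σ.permMatrix ℂ
  refine ⟨A.updateCol (Fin.last m) z, ?_, ?_⟩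
  · rw [← Matrix.cramer_apply]
    have h1 : A * A = 1 := by
      simp only [A, ← Matrix.permMatrix_mul]
      simp [σ]
    have h2 : A.det * A.det = 1 := by rw [← Matrix.det_mul, h1, Matrix.det_one]
    have h3 : A.det ≠ 0 := by
      intro h0
      rw [h0, mul_zero] at h2
      exact zero_ne_one h2
    have h4 : A.adjugate = A.det • A := by
      calc A.adjugate = A.adjugate * (A * A) := by rw [h1, mul_one]
        _ = (A.adjugate * A) * A := by rw [mul_assoc]
        _ = A.det • A := by rw [Matrix.adjugate_mul, Matrix.smul_mul, Matrix.one_mul]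
    rw [Matrix.cramer_eq_adjugate_mulVec, h4, Matrix.smul_mulVec, Pi.smul_apply,
      Matrix.permMatrix_mulVec]
    simp only [Function.comp_apply, σ, Equiv.swap_apply_right, smul_eq_mul]
    exact mul_ne_zero h3 hj
  · funext i
    unfold bp
    rw [Matrix.mulVec_single_one, Matrix.col_apply, Matrix.updateCol_self]

theorem good_sing {f : MvPolynomial (Fin (m + 1)) ℂ} (hf : f.IsHomogeneous (e + 1)) :
    (∀ i, eval (bp m) (pderiv i f) = 0) ↔ ∀ α, e ≤ α (Fin.last m) → coeff α f = 0 := by
  have h1 : ∀ i, eval (bp m) (pderiv i f) =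
      coeff (Finsupp.single (Fin.last m) e + Finsupp.single i 1) f *
        ((Finsupp.single (Fin.last m) e) i + 1) := by
    intro i
    rw [eval_bp (e := e) hf.pderiv, coeff_pderiv]
  constructor
  · intro h α hα
    by_contra hne
    have h5 : α.degree = e + 1 := by
      by_contra h5
      exact hne (hf.coeff_eq_zero h5)
    obtain ⟨i, hi⟩ : ∃ i, α = Finsupp.single (Fin.last m) e + Finsupp.single i 1 := by
      have h6 : Finsupp.single (Fin.last m) e ≤ α := by
        rw [Finsupp.single_le_iff]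
        exact hα
      have h7 : (α - Finsupp.single (Fin.last m) e).degree = 1 := by
        have h8 := congrArg Finsupp.degree (tsub_add_cancel_of_le h6)
        rw [map_add, Finsupp.degree_single, h5] at h8
        omega
      obtain ⟨i, hi⟩ := exists_single_of_degree_one h7
      refine ⟨i, ?_⟩
      rw [← hi, add_tsub_cancel_of_le h6]
    have h6 := h i
    rw [h1 i, ← hi] at h6
    rcases mul_eq_zero.mp h6 with h7 | h7
    · exact hne h7
    · have : ((((Finsupp.single (Fin.last m) e) i + 1 : ℕ)) : ℂ) ≠ 0 :=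
        Nat.cast_ne_zero.mpr (Nat.succ_ne_zero _)
      apply this
      push_cast
      exact h7
  · intro h i
    rw [h1 i, h, zero_mul]
    rw [Finsupp.add_apply, Finsupp.single_eq_same]
    omega

/-- the parameters -/
abbrev Par (m e : ℕ) : Type := (Fin (m + 1) × Fin (m + 1)) ⊕ Mon (m + 1) (e + 1)

/-- the form with vanishing coefficients at the monomials of degree at least `e` in the last
variable -/
def gform {R : Type} [CommRing R] (e : ℕ) (c : Mon (m + 1) (e + 1) → R) :
    MvPolynomial (Fin (m + 1)) R :=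
  form fun α => if e ≤ α.1 (Fin.last m) then 0 else c α

theorem map_gform {R S : Type} [CommRing R] [CommRing S] (φ : R →+* S)
    (c : Mon (m + 1) (e + 1) → R) : map φ (gform e c) = gform e (fun α => φ (c α)) := by
  unfold gform
  rw [map_form]
  congr 1
  funext α
  split_ifs <;> simp

/-- the parametrization of the degenerate forms -/
def par (m e : ℕ) : MvPolynomial (Mon (m + 1) (e + 1)) ℂ →ₐ[ℂ] MvPolynomial (Par m e) ℂ :=
  aeval fun α => coeff α.1 (subst (Matrix.of fun i j => X (Sum.inl (i, j)))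
    (gform e fun β => (X (Sum.inr β) : MvPolynomial (Par m e) ℂ)))

theorem eval_par (y : Par m e → ℂ) (Q : MvPolynomial (Mon (m + 1) (e + 1)) ℂ) :
    eval y (par m e Q) = eval (cv (subst (Matrix.of fun i j => y (Sum.inl (i, j)))
      (gform e fun β => y (Sum.inr β)))) Q := by
  have h1 : (eval y).comp (par m e).toRingHom =
      eval (cv (subst (Matrix.of fun i j => y (Sum.inl (i, j)))
      (gform e fun β => y (Sum.inr β))) : Mon (m + 1) (e + 1) → ℂ) := by
    apply MvPolynomial.ringHom_ext
    · intro r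
      simp [par]
    · intro α
      simp only [par, AlgHom.toRingHom_eq_coe, RingHom.coe_comp, RingHom.coe_coe,
        Function.comp_apply, aeval_X, eval_X]
      rw [← coeff_map, map_subst, map_gform]
      have h2 : (Matrix.of fun i j => (X (Sum.inl (i, j)) : MvPolynomial (Par m e) ℂ)).map (eval y) =
          Matrix.of fun i j => y (Sum.inl (i, j)) := by
        ext i j
        simp
      rw [h2]
      simp only [eval_X]
      rfl
  exact DFunLike.congr_fun h1 Q

theorem gform_homog (c : Mon (m + 1) (e + 1) → ℂ) : (gform e c).IsHomogeneous (e + 1) :=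
  form_isHomogeneous _

theorem par_degenerate (he : 1 ≤ e) (y : Par m e → ℂ) :
    ¬ Nondegenerate (form (cv (subst (Matrix.of fun i j => y (Sum.inl (i, j)))
      (gform e fun β => y (Sum.inr β))) : Mon (m + 1) (e + 1) → ℂ)) := by
  rw [form_cv _ (subst_homog _ (gform_homog _))]
  set g : Matrix (Fin (m + 1)) (Fin (m + 1)) ℂ := Matrix.of fun i j => y (Sum.inl (i, j))
  set f := gform e fun β => y (Sum.inr β)
  have hf : f.IsHomogeneous (e + 1) := gform_homog _
  have hd : ∀ z, (∀ l, eval (g.mulVec z) (pderiv l f) = 0) →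
      ∀ i, eval z (pderiv i (subst g f)) = 0 := by
    intro z hz i
    rw [pderiv_subst, map_sum]
    refine Finset.sum_eq_zero fun l _ => ?_
    rw [map_mul, eval_subst, hz, mul_zero]
  intro hnd
  by_cases hg : g.det = 0
  · obtain ⟨v, hv, hv2⟩ := Matrix.exists_mulVec_eq_zero_iff.mpr hg
    apply hv
    apply hnd
    apply hd
    intro l
    rw [hv2]
    have h1 : (pderiv l f).IsHomogeneous e := hf.pderiv
    have h2 := h1.coeff_eq_zero (d := 0) (by rw [map_zero]; omega)
    rw [← constantCoeff_eq] at h2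
    have h3 : eval (0 : Fin (m + 1) → ℂ) (pderiv l f) = constantCoeff (pderiv l f) := by
      rw [← eval_zero]
    rw [h3, h2]
  · have h1 : g.mulVec (g⁻¹.mulVec (bp m)) = bp m := by
      rw [Matrix.mulVec_mulVec, Matrix.mul_nonsing_inv _ (isUnit_iff_ne_zero.mpr hg),
        Matrix.one_mulVec]
    have h2 : g⁻¹.mulVec (bp m) = 0 := by
      apply hnd
      apply hd
      rw [h1]
      refine (good_sing hf).mpr fun α hα => ?_
      by_cases h3 : α.degree = e + 1
      · have h4 := coeff_form (fun β : Mon (m + 1) (e + 1) => if e ≤ β.1 (Fin.last m) then 0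
          else y (Sum.inr β)) ⟨α, mem_mon α h3⟩
        rw [if_pos hα] at h4
        exact h4
      · exact hf.coeff_eq_zero h3
    rw [h2, Matrix.mulVec_zero] at h1
    have h3 := congrFun h1 (Fin.last m)
    unfold bp at h3
    rw [Pi.single_eq_same] at h3
    exact zero_ne_one h3

theorem exists_par (he : 1 ≤ e) (c : Mon (m + 1) (e + 1) → ℂ) (hc : ¬ Nondegenerate (form c)) :
    ∃ y : Par m e → ℂ, cv (subst (Matrix.of fun i j => y (Sum.inl (i, j)))
      (gform e fun β => y (Sum.inr β))) = c := by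
  unfold Pool.Agent.Helper56.Disc.Nondegenerate at hc
  push Not at hc
  obtain ⟨z, hz, hz0⟩ := hc
  obtain ⟨h, hh, hhz⟩ := exists_matrix hz0
  have hu : IsUnit h.det := isUnit_iff_ne_zero.mpr hh
  let f := subst h (form c)
  have hf : f.IsHomogeneous (e + 1) := subst_homog _ (form_isHomogeneous c)
  have h1 : ∀ i, eval (bp m) (pderiv i f) = 0 := by
    intro i
    rw [pderiv_subst, map_sum]
    refine Finset.sum_eq_zero fun l _ => ?_
    rw [map_mul, eval_subst, hhz, hz, mul_zero]
  have h2 := (good_sing hf).mp h1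
  refine ⟨Sum.elim (fun p => h⁻¹ p.1 p.2) (cv f), ?_⟩
  have h3 : (Matrix.of fun i j => (Sum.elim (fun p => h⁻¹ p.1 p.2) (cv f) : Par m e → ℂ)
      (Sum.inl (i, j))) = h⁻¹ := by
    ext i j
    rfl
  have h4 : (gform e fun β => (Sum.elim (fun p => h⁻¹ p.1 p.2) (cv f) : Par m e → ℂ)
      (Sum.inr β)) = f := by
    have h5 : (fun α : Mon (m + 1) (e + 1) => if e ≤ α.1 (Fin.last m) then 0 else
        (Sum.elim (fun p => h⁻¹ p.1 p.2) (cv f) : Par m e → ℂ) (Sum.inr α)) = cv f := by
      funext α
      split_ifs with h6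
      · exact (h2 α.1 h6).symm
      · rfl
    unfold gform
    rw [h5]
    exact form_cv _ hf
  rw [h3, h4, subst_subst, Matrix.mul_nonsing_inv _ hu, subst_one]
  exact cv_form c

/-- Existence of the discriminant. -/
theorem exists_discriminant {n d : ℕ} (hn : 2 ≤ n) (hd : 3 ≤ d) :
    ∃ Δ : MvPolynomial (Mon n d) ℂ, IsDiscriminant Δ := by
  obtain ⟨m, rfl⟩ : ∃ m, n = m + 1 := ⟨n - 1, by omega⟩
  obtain ⟨e, rfl⟩ : ∃ e, d = e + 1 := ⟨d - 1, by omega⟩
  obtain ⟨𝓡⟩ := Pool.Agent.Helper819.Gr.exists_ResD (k := ℂ) (N := m) (e := e) (by omega)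
  let P : MvPolynomial (Mon (m + 1) (e + 1)) ℂ := 𝓡.dX
  have hP : ∀ c : Mon (m + 1) (e + 1) → ℂ, eval c P = 0 ↔ ¬ Nondegenerate (form c) := by
    intro c
    have h1 := 𝓡.iff (Pool.Agent.Helper819.Gr.grad c)
    rw [Pool.Agent.Helper819.Gr.tup_grad] at h1
    have h2 : eval c P = eval (Pool.Agent.Helper819.Gr.grad c) 𝓡.D := 𝓡.eval_dX c
    rw [h2, ← not_iff_not, not_not]
    exact h1
  have hP0 : P ≠ 0 := by
    intro h0
    apply 𝓡.dsc_fermat (by omega)
    rw [← 𝓡.eval_dX]
    change eval _ P = 0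
    rw [h0, map_zero]
  have hker : P ∈ RingHom.ker (par m e).toRingHom := by
    change par m e P = 0
    apply MvPolynomial.funext
    intro y
    rw [eval_par, map_zero, hP]
    exact par_degenerate (by omega) y
  have hprime : (RingHom.ker (par m e).toRingHom).IsPrime := RingHom.ker_isPrime _
  have h1 : (UniqueFactorizationMonoid.factors P).prod ∈ RingHom.ker (par m e).toRingHom := by
    obtain ⟨u, hu⟩ := UniqueFactorizationMonoid.factors_prod hP0
    have h2 : (UniqueFactorizationMonoid.factors P).prod = P * (u⁻¹ : _ˣ) := by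
      rw [Units.eq_mul_inv_iff_mul_eq]
      exact hu
    rw [h2]
    exact Ideal.mul_mem_right _ _ hker
  obtain ⟨Δ, hΔ, hΔ2⟩ := (hprime.multiset_prod_mem_iff_exists_mem _).mp h1
  refine ⟨Δ, UniqueFactorizationMonoid.irreducible_of_factor _ hΔ, fun c => ⟨fun h => ?_,
    fun h => ?_⟩⟩
  · rw [← hP]
    obtain ⟨Q, hQ⟩ := UniqueFactorizationMonoid.dvd_of_mem_factors hΔ
    rw [hQ, map_mul, h, zero_mul]
  · obtain ⟨y, rfl⟩ := exists_par (by omega) c h
    rw [← eval_par]
    have h2 : par m e Δ = 0 := hΔ2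
    rw [h2, map_zero]

end

end Pool.Agent.H964R2.Disc
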