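import Pool.Agent.H964R2.Disc.Grid

/-!
A family of forms with one node.
-/

open MvPolynomial Pool.Agent.Helper56.Disc

namespace Pool.Agent.H964R2.Disc

noncomputable section

variable {m : ℕ}

/-- the family of forms of degree `e + 1` -/
def fam (e : ℕ) (c : Fin m → ℂ) (t : ℂ) : MvPolynomial (Fin (m + 1)) ℂ :=
  (∑ i : Fin m, C (c i) * (C 2 * X i.castSucc ^ (e + 1) -
    C ((e : ℂ) + 1) * (X i.castSucc ^ 2 * X (Fin.last m) ^ (e - 1)))) +
    C t * X (Fin.last m) ^ (e + 1)

theorem fam_homog {e : ℕ} (he : 2 ≤ e) (c : Fin m → ℂ) (t : ℂ) :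
    (fam e c t).IsHomogeneous (e + 1) := by
  unfold fam
  refine IsHomogeneous.add (IsHomogeneous.sum _ _ _ fun i _ => ?_)
    (((isHomogeneous_X ℂ _).pow (e + 1)).C_mul t |> fun h => by simpa using h)
  refine IsHomogeneous.C_mul (IsHomogeneous.sub ?_ ?_) _
  · have := ((isHomogeneous_X ℂ i.castSucc).pow (e + 1)).C_mul 2
    simpa using this
  · have := (((isHomogeneous_X ℂ i.castSucc).pow 2).mul
      ((isHomogeneous_X ℂ (Fin.last m)).pow (e - 1))).C_mul ((e : ℂ) + 1)
    have h2 : 1 * 2 + 1 * (e - 1) = e + 1 := by omega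
    rwa [h2] at this

theorem castSucc_ne_last (i : Fin m) : i.castSucc ≠ Fin.last m := (Fin.castSucc_lt_last i).ne

theorem pderiv_fam_castSucc {e : ℕ} (he : 2 ≤ e) (c : Fin m → ℂ) (t : ℂ) (i : Fin m) :
    pderiv i.castSucc (fam e c t) = C (2 * ((e : ℂ) + 1) * c i) * gen e i := by
  unfold fam gen
  rw [map_add, map_sum, Finset.sum_eq_single i]
  · have h1 : pderiv i.castSucc (X (Fin.last m) : MvPolynomial (Fin (m + 1)) ℂ) = 0 :=
      pderiv_X_of_ne (castSucc_ne_last i).symm
    simp only [pderiv_C, map_sub, Derivation.leibniz, Derivation.leibniz_pow, h1,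
      pderiv_X_self, smul_eq_mul, mul_zero, smul_zero, zero_add, add_zero, mul_one, nsmul_eq_mul]
    have h2 : e + 1 - 1 = e := by omega
    rw [h2]
    simp only [map_mul, map_add, map_one, map_ofNat, map_natCast]
    push_cast
    ring
  · intro j _ hj
    have h1 : pderiv i.castSucc (X (Fin.last m) : MvPolynomial (Fin (m + 1)) ℂ) = 0 :=
      pderiv_X_of_ne (castSucc_ne_last i).symm
    have h2 : pderiv i.castSucc (X j.castSucc : MvPolynomial (Fin (m + 1)) ℂ) = 0 :=
      pderiv_X_of_ne fun h => hj (Fin.castSucc_injective m h)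
    simp only [pderiv_C, map_sub, Derivation.leibniz, Derivation.leibniz_pow, h1, h2,
      smul_eq_mul, mul_zero, smul_zero, zero_add, sub_zero]
  · intro h
    exact absurd (Finset.mem_univ _) h

theorem pderiv_fam_last {e : ℕ} (he : 2 ≤ e) (c : Fin m → ℂ) (t : ℂ) :
    pderiv (Fin.last m) (fam e c t) = C (((e : ℂ) + 1) * t) * X (Fin.last m) ^ e -
      C (((e : ℂ) + 1) * ((e : ℂ) - 1)) *
        (X (Fin.last m) ^ (e - 2) * ∑ i : Fin m, C (c i) * X i.castSucc ^ 2) := by
  unfold fam
  have h2 : ∀ j : Fin m, pderiv (Fin.last m) (X j.castSucc : MvPolynomial (Fin (m + 1)) ℂ) = 0 :=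
    fun j => pderiv_X_of_ne (castSucc_ne_last j)
  rw [map_add, map_sum]
  simp only [pderiv_C, map_sub, Derivation.leibniz, Derivation.leibniz_pow, h2,
    pderiv_X_self, smul_eq_mul, mul_zero, smul_zero, zero_add, add_zero, mul_one, nsmul_eq_mul,
    zero_sub]
  have h3 : e + 1 - 1 = e := by omega
  have h4 : e - 1 - 1 = e - 2 := by omega
  have h5 : ((e - 1 : ℕ) : MvPolynomial (Fin (m + 1)) ℂ) = C ((e : ℂ) - 1) := by
    rw [Nat.cast_sub (by omega)]
    simp
  rw [h3, h4, h5]
  have h6 : ∀ j : Fin m, C (c j) * -(C ((e : ℂ) + 1) * (X j.castSucc ^ 2 *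
      (C ((e : ℂ) - 1) * X (Fin.last m) ^ (e - 2)))) =
      -(C (((e : ℂ) + 1) * ((e : ℂ) - 1)) * X (Fin.last m) ^ (e - 2)) *
        (C (c j) * X j.castSucc ^ 2) := by
    intro j
    rw [map_mul]
    ring
  simp only [h6]
  rw [← Finset.mul_sum]
  simp only [map_mul, map_add, map_sub, map_natCast, map_one]
  push_cast
  ring

/-- the value of the last partial derivative at a point of the grid -/
def gv (e : ℕ) (c : Fin m → ℂ) (t : ℂ) (p : Fin m → ℂ) : ℂ :=
  ((e : ℂ) + 1) * (t - ((e : ℂ) - 1) * ∑ i, c i * p i ^ 2)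

theorem eval_last {e : ℕ} (he : 2 ≤ e) (c : Fin m → ℂ) (t : ℂ) (p : Fin m → ℂ) :
    eval (pt p) (pderiv (Fin.last m) (fam e c t)) = gv e c t p := by
  rw [pderiv_fam_last he]
  unfold gv
  simp only [map_sub, map_mul, map_pow, map_sum, eval_C, eval_X, pt_last, pt_castSucc, one_pow,
    mul_one, one_mul]
  ring

theorem eval_gen {e : ℕ} (he : 2 ≤ e) {p : Fin m → ℂ} (hp : p ∈ grid m e) (i : Fin m) :
    eval (pt p) (gen e i) = 0 := by
  unfold gen
  simp only [map_sub, map_mul, map_pow, eval_X, pt_last, pt_castSucc, one_pow, mul_one]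
  have h1 := (mem_nodes he).mp (Fintype.mem_piFinset.mp hp i)
  obtain ⟨k, rfl⟩ : ∃ k, e = k + 1 := ⟨e - 1, by omega⟩
  rcases h1 with h1 | h1
  · rw [h1, zero_pow (by omega), sub_zero]
  · have h2 : k + 1 - 1 = k := by omega
    rw [h2] at h1
    rw [pow_succ, h1, one_mul, sub_self]

theorem eval_castSucc {e : ℕ} (he : 2 ≤ e) (c : Fin m → ℂ) (t : ℂ) {p : Fin m → ℂ}
    (hp : p ∈ grid m e) (i : Fin m) :
    eval (pt p) (pderiv i.castSucc (fam e c t)) = 0 := by
  rw [pderiv_fam_castSucc he, map_mul, eval_gen he hp, mul_zero]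

/-- nondegenerate members -/
theorem nondeg {e : ℕ} (he : 2 ≤ e) (c : Fin m → ℂ) (hc : ∀ i, c i ≠ 0) (t : ℂ)
    (h : ∀ p ∈ grid m e, gv e c t p ≠ 0) : Nondegenerate (fam e c t) := by
  intro z hz
  have he1 : (2 * ((e : ℂ) + 1)) ≠ 0 := by
    have : ((e : ℂ) + 1) ≠ 0 := by exact_mod_cast Nat.succ_ne_zero e
    simpa using this
  have h1 : ∀ i : Fin m, z i.castSucc ^ e = z i.castSucc * z (Fin.last m) ^ (e - 1) := by
    intro i
    have h2 := hz i.castSucc
    rw [pderiv_fam_castSucc he, map_mul, eval_C] at h2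
    have h3 := (mul_eq_zero.mp h2).resolve_left (mul_ne_zero he1 (hc i))
    unfold gen at h3
    simp only [map_sub, map_mul, map_pow, eval_X] at h3
    exact sub_eq_zero.mp h3
  by_cases hl : z (Fin.last m) = 0
  · funext i
    refine Fin.lastCases hl (fun j => ?_) i
    have h2 := h1 j
    rw [hl, zero_pow (by omega), mul_zero] at h2
    exact pow_eq_zero_iff (by omega) |>.mp h2
  · exfalso
    let p : Fin m → ℂ := fun i => z i.castSucc / z (Fin.last m)
    have hp : p ∈ grid m e := by
      refine Fintype.mem_piFinset.mpr fun i => ?_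
      rw [mem_nodes he]
      by_cases h0 : z i.castSucc = 0
      · left
        simp [p, h0]
      · right
        have h2 := h1 i
        obtain ⟨k, rfl⟩ : ∃ k, e = k + 1 := ⟨e - 1, by omega⟩
        have h3 : k + 1 - 1 = k := by omega
        rw [h3] at h2 ⊢
        rw [pow_succ'] at h2
        have h4 := mul_left_cancel₀ h0 h2
        simp only [p, div_pow]
        rw [h4, div_self (pow_ne_zero _ hl)]
    apply h p hp
    rw [← eval_last he c t p]
    have h2 := hz (Fin.last m)
    have h3 : z = fun i => z (Fin.last m) * pt p i := by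
      funext i
      refine Fin.lastCases ?_ (fun j => ?_) i
      · rw [pt_last, mul_one]
      · rw [pt_castSucc]
        simp only [p]
        field_simp
    have h4 : (pderiv (Fin.last m) (fam e c t)).IsHomogeneous e := (fam_homog he c t).pderiv
    have h5 : eval z (pderiv (Fin.last m) (fam e c t)) = z (Fin.last m) ^ e *
        eval (pt p) (pderiv (Fin.last m) (fam e c t)) := by
      conv_lhs => rw [h3]
      rw [eval_eq', eval_eq', Finset.mul_sum]
      refine Finset.sum_congr rfl fun α hα => ?_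
      have h5 : α.degree = e := by
        by_contra h5
        exact (mem_support_iff.mp hα) (h4.coeff_eq_zero h5)
      rw [Finsupp.degree_eq_sum] at h5
      simp only [mul_pow]
      rw [Finset.prod_mul_distrib, Finset.prod_pow_eq_pow_sum, h5]
      ring
    rw [h5] at h2
    exact (mul_eq_zero.mp h2).resolve_left (pow_ne_zero _ hl)

/-- the Hessian determinant at the points of the grid -/
theorem eval_hess {e : ℕ} (he : 2 ≤ e) (c : Fin m → ℂ) (t : ℂ) {p : Fin m → ℂ}
    (hp : p ∈ grid m e) :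
    eval (pt p) (hess (fam e c t)) =
      (e : ℂ) * gv e c t p * ((∏ i, (2 * ((e : ℂ) + 1) * c i)) * wtp e p) := by
  let H : Matrix (Fin (m + 1)) (Fin (m + 1)) ℂ :=
    Matrix.of fun i j => eval (pt p) (pderiv j (pderiv i (fam e c t)))
  have h0 : eval (pt p) (hess (fam e c t)) = H.det := by
    unfold hess
    rw [RingHom.map_det]
    rfl
  have h1 : H.mulVec (pt p) = Pi.single (Fin.last m) ((e : ℂ) * gv e c t p) := by
    funext i
    have h2 : (pderiv i (fam e c t)).IsHomogeneous e := (fam_homog he c t).pderiv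
    have h3 := congrArg (eval (pt p)) h2.sum_X_mul_pderiv
    rw [map_sum, nsmul_eq_mul, map_mul, map_natCast] at h3
    have h4 : H.mulVec (pt p) i = (e : ℂ) * eval (pt p) (pderiv i (fam e c t)) := by
      rw [← h3]
      simp only [Matrix.mulVec, dotProduct, H, Matrix.of_apply]
      refine Finset.sum_congr rfl fun j _ => ?_
      rw [map_mul, eval_X, mul_comm]
    rw [h4]
    refine Fin.lastCases ?_ (fun j => ?_) i
    · rw [Pi.single_eq_same, eval_last he]
    · rw [Pi.single_eq_of_ne (castSucc_ne_last j), eval_castSucc he c t hp, mul_zero]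
  have h2 : H.cramer (H.mulVec (pt p)) = H.det • pt p := by
    rw [Matrix.cramer_eq_adjugate_mulVec, Matrix.mulVec_mulVec, Matrix.adjugate_mul,
      Matrix.smul_mulVec, Matrix.one_mulVec]
  have h3 := congrFun h2 (Fin.last m)
  rw [Pi.smul_apply, pt_last, smul_eq_mul, mul_one, Matrix.cramer_apply, h1,
    Matrix.det_succ_column _ (Fin.last m)] at h3
  rw [h0, ← h3, Finset.sum_eq_single (Fin.last m)]
  · rw [Matrix.updateCol_self, Pi.single_eq_same]
    have h4 : (H.updateCol (Fin.last m) (Pi.single (Fin.last m) ((e : ℂ) * gv e c t p))).submatrix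
        (Fin.last m).succAbove (Fin.last m).succAbove =
        Matrix.diagonal fun i : Fin m => 2 * ((e : ℂ) + 1) * c i * wt e (p i) := by
      ext i j
      rw [Matrix.submatrix_apply, Fin.succAbove_last, Matrix.updateCol_ne (castSucc_ne_last j)]
      simp only [H, Matrix.of_apply]
      rw [pderiv_fam_castSucc he, pderiv_C_mul, map_mul, eval_C]
      unfold gen
      have h5 : pderiv j.castSucc (X (Fin.last m) : MvPolynomial (Fin (m + 1)) ℂ) = 0 :=
        pderiv_X_of_ne (castSucc_ne_last j).symm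
      by_cases hij : i = j
      · subst hij
        rw [Matrix.diagonal_apply_eq, wt_eq he (Fintype.mem_piFinset.mp hp i)]
        simp only [map_sub, Derivation.leibniz, Derivation.leibniz_pow, h5,
          pderiv_X_self, smul_eq_mul, mul_zero, smul_zero, zero_add, mul_one,
          nsmul_eq_mul, map_mul, map_pow, eval_X, pt_last, pt_castSucc, one_pow, map_natCast]
      · rw [Matrix.diagonal_apply_ne _ hij]
        have h6 : pderiv j.castSucc (X i.castSucc : MvPolynomial (Fin (m + 1)) ℂ) = 0 :=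
          pderiv_X_of_ne fun h => hij (Fin.castSucc_injective m h)
        simp only [map_sub, Derivation.leibniz, Derivation.leibniz_pow, h5, h6,
          smul_eq_mul, mul_zero, smul_zero, add_zero, map_zero, sub_zero]
    rw [h4, Matrix.det_diagonal, Finset.prod_mul_distrib]
    have h5 : (-1 : ℂ) ^ ((Fin.last m : ℕ) + (Fin.last m : ℕ)) = 1 := by
      rw [← two_mul, pow_mul]
      simp
    rw [h5, one_mul]
    rfl
  · intro i _ hi
    rw [Matrix.updateCol_self, Pi.single_eq_of_ne hi]
    ring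
  · intro h
    exact absurd (Finset.mem_univ _) h

end

end Pool.Agent.H964R2.Disc
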