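import Pool.Agent.Helper56.Disc.Assoc

/-!
Polynomials on a grid.
-/

open MvPolynomial

namespace Pool.Agent.H964R2.Disc

noncomputable section

/-- The nodes: `0` and the roots of unity of order `e - 1`. -/
def nodes (e : ℕ) : Finset ℂ := insert 0 (Polynomial.nthRootsFinset (e - 1) (1 : ℂ))

theorem zero_mem_nodes (e : ℕ) : (0 : ℂ) ∈ nodes e := Finset.mem_insert_self _ _

theorem mem_nodes {e : ℕ} (he : 2 ≤ e) {a : ℂ} : a ∈ nodes e ↔ a = 0 ∨ a ^ (e - 1) = 1 := by
  unfold nodes
  rw [Finset.mem_insert, Polynomial.mem_nthRootsFinset (by omega)]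

theorem card_nodes {e : ℕ} (he : 2 ≤ e) : (nodes e).card = e := by
  unfold nodes
  rw [Finset.card_insert_of_notMem]
  · have h := Complex.isPrimitiveRoot_exp (e - 1) (by omega)
    rw [h.card_nthRootsFinset]
    omega
  · rw [Polynomial.mem_nthRootsFinset (by omega), zero_pow (by omega)]
    exact zero_ne_one

/-- The homogeneous product. -/
theorem prod_nodes {A : Type*} [CommRing A] [Algebra ℂ A] {e : ℕ} (he : 2 ≤ e) (x y : A) :
    ∏ a ∈ nodes e, (x - algebraMap ℂ A a * y) = x ^ e - x * y ^ (e - 1) := by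
  have h := Complex.isPrimitiveRoot_exp (e - 1) (by omega)
  unfold nodes
  rw [Finset.prod_insert]
  · have key : ∏ a ∈ Polynomial.nthRootsFinset (e - 1) (1 : ℂ), (x - algebraMap ℂ A a * y) =
        x ^ (e - 1) - y ^ (e - 1) := by
      have h1 : ∏ a ∈ Polynomial.nthRootsFinset (e - 1) (1 : ℂ),
          ((X 0 : MvPolynomial (Fin 2) ℂ) - C a * X 1) = X 0 ^ (e - 1) - X 1 ^ (e - 1) := by
        apply MvPolynomial.funext
        intro z
        rw [map_prod]
        simp only [map_sub, map_mul, map_pow, eval_X, eval_C]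
        exact (h.pow_sub_pow_eq_prod_sub_mul (x := z 0) (y := z 1) (by omega)).symm
      have h2 := congrArg (aeval ![x, y]) h1
      rw [map_prod] at h2
      simpa [algebraMap_eq] using h2
    rw [key, map_zero, zero_mul, sub_zero, mul_sub, ← pow_succ']
    have h3 : e - 1 + 1 = e := by omega
    rw [h3]
  · rw [Polynomial.mem_nthRootsFinset (by omega), zero_pow (by omega)]
    exact zero_ne_one

/-- The derivative of `∏ (x - a)` at the node `a`. -/
def wt (e : ℕ) (a : ℂ) : ℂ := ∏ b ∈ (nodes e).erase a, (a - b)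

theorem wt_ne_zero {e : ℕ} (a : ℂ) : wt e a ≠ 0 := by
  unfold wt
  rw [Finset.prod_ne_zero_iff]
  intro b hb h
  rw [sub_eq_zero] at h
  exact (Finset.ne_of_mem_erase hb) h.symm

theorem wt_eq {e : ℕ} (he : 2 ≤ e) {a : ℂ} (ha : a ∈ nodes e) :
    wt e a = (e : ℂ) * a ^ (e - 1) - 1 := by
  have h1 := Lagrange.eval_nodal_derivative_eval_node_eq (s := nodes e) (v := (id : ℂ → ℂ)) ha
  have h2 : Lagrange.nodal (nodes e) (id : ℂ → ℂ) = Polynomial.X ^ e - Polynomial.X := by
    rw [Lagrange.nodal_eq]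
    have := prod_nodes (A := Polynomial ℂ) he Polynomial.X 1
    rw [one_pow, mul_one] at this
    rw [← this]
    simp
  rw [h2, Lagrange.eval_nodal] at h1
  unfold wt
  simp only [id] at h1
  rw [← h1]
  simp [Polynomial.derivative_X_pow]

theorem sum_pow_wt {e : ℕ} (he : 2 ≤ e) {k : ℕ} (hk : k < e - 1) :
    ∑ a ∈ nodes e, a ^ k / wt e a = 0 := by
  have h1 := Lagrange.coeff_eq_sum (s := nodes e) (v := (id : ℂ → ℂ)) (P := Polynomial.X ^ k)
    Function.injective_id.injOn (by
      rw [Polynomial.degree_X_pow, card_nodes he]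
      exact_mod_cast (by omega : k < e))
  rw [card_nodes he, Polynomial.coeff_X_pow, if_neg (by omega)] at h1
  rw [h1]
  refine Finset.sum_congr rfl fun a _ => ?_
  simp [wt]

variable {m : ℕ}

/-- the grid -/
def grid (m e : ℕ) : Finset (Fin m → ℂ) := Fintype.piFinset fun _ => nodes e

/-- the point of the grid in projective space -/
def pt (p : Fin m → ℂ) : Fin (m + 1) → ℂ := Fin.snoc p 1

theorem pt_castSucc (p : Fin m → ℂ) (i : Fin m) : pt p i.castSucc = p i := by
  unfold pt; simp

theorem pt_last (p : Fin m → ℂ) : pt p (Fin.last m) = 1 := by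
  unfold pt; simp

/-- weight of a grid point -/
def wtp (e : ℕ) (p : Fin m → ℂ) : ℂ := ∏ i, wt e (p i)

theorem wtp_ne_zero {e : ℕ} (p : Fin m → ℂ) : wtp e p ≠ 0 :=
  Finset.prod_ne_zero_iff.mpr fun _ _ => wt_ne_zero _

/-- The sum of the values of a polynomial of low degree over the grid. -/
theorem sum_low {e : ℕ} (he : 2 ≤ e) {s : ℕ} (A : MvPolynomial (Fin (m + 1)) ℂ)
    (hA : A.IsHomogeneous s) (hs : s < m * (e - 1)) :
    ∑ p ∈ grid m e, eval (pt p) A / wtp e p = 0 := by
  have h1 : ∀ p : Fin m → ℂ, eval (pt p) A / wtp e p =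
      ∑ α ∈ A.support, coeff α A * ∏ i : Fin m, (p i ^ α i.castSucc / wt e (p i)) := by
    intro p
    rw [eval_eq', Finset.sum_div]
    refine Finset.sum_congr rfl fun α _ => ?_
    rw [Fin.prod_univ_castSucc, pt_last, one_pow, mul_one, mul_div_assoc]
    unfold wtp
    rw [Finset.prod_div_distrib]
    simp only [pt_castSucc]
  simp only [h1]
  rw [Finset.sum_comm]
  apply Finset.sum_eq_zero
  intro α hα
  rw [← Finset.mul_sum]
  have h2 : ∑ p ∈ grid m e, ∏ i : Fin m, (p i ^ α i.castSucc / wt e (p i)) =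
      ∏ i : Fin m, ∑ a ∈ nodes e, (a ^ α i.castSucc / wt e a) := by
    unfold grid
    rw [Finset.prod_univ_sum]
  rw [h2]
  have h3 : ∃ i : Fin m, α i.castSucc < e - 1 := by
    by_contra hcon
    push Not at hcon
    have h4 : α.degree = s := by
      by_contra h5
      exact (mem_support_iff.mp hα) (hA.coeff_eq_zero h5)
    rw [Finsupp.degree_eq_sum, Fin.sum_univ_castSucc] at h4
    have h5 : m * (e - 1) ≤ ∑ i : Fin m, α i.castSucc := by
      calc m * (e - 1) = ∑ _i : Fin m, (e - 1) := by simp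
        _ ≤ _ := Finset.sum_le_sum fun i _ => hcon i
    omega
  obtain ⟨i, hi⟩ := h3
  rw [Finset.prod_eq_zero (Finset.mem_univ i) (sum_pow_wt he hi), mul_zero]

/-- the generators of the ideal of the grid -/
def gen (e : ℕ) (i : Fin m) : MvPolynomial (Fin (m + 1)) ℂ :=
  X i.castSucc ^ e - X i.castSucc * X (Fin.last m) ^ (e - 1)

/-- A form which vanishes on the grid is in the ideal of the grid. -/
theorem mem_of_vanish {e : ℕ} (he : 2 ≤ e) {s : ℕ} (h : MvPolynomial (Fin (m + 1)) ℂ)
    (hh : h.IsHomogeneous s) (hv : ∀ p ∈ grid m e, eval (pt p) h = 0) :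
    h ∈ Ideal.span (Set.range (gen (m := m) e)) := by
  classical
  let Θ : MvPolynomial (Fin (m + 1)) ℂ →ₐ[ℂ] MvPolynomial (Fin m) (Polynomial ℂ) :=
    aeval (Fin.snoc (fun i => X i) (C Polynomial.X) : Fin (m + 1) → MvPolynomial (Fin m) (Polynomial ℂ))
  let Ξ : MvPolynomial (Fin m) (Polynomial ℂ) →+* MvPolynomial (Fin (m + 1)) ℂ :=
    eval₂Hom (Polynomial.aeval (X (Fin.last m) : MvPolynomial (Fin (m + 1)) ℂ)).toRingHom
      (fun i => X i.castSucc)
  have hΞΘ : ∀ g, Ξ (Θ g) = g := by
    intro g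
    have : (Ξ.comp Θ.toRingHom) = RingHom.id _ := by
      apply MvPolynomial.ringHom_ext
      · intro r
        simp [Θ, Ξ]
      · intro i
        refine Fin.lastCases ?_ (fun j => ?_) i
        · simp [Θ, Ξ]
        · simp [Θ, Ξ]
    exact DFunLike.congr_fun this g
  let S : Fin m → Finset (Polynomial ℂ) := fun _ =>
    (nodes e).image fun a => Polynomial.C a * Polynomial.X
  have hinj : Function.Injective fun a : ℂ => (Polynomial.C a * Polynomial.X : Polynomial ℂ) := by
    intro a b hab
    have := congrArg (fun q => Polynomial.coeff q 1) hab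
    simpa using this
  have hev : ∀ x : Fin m → Polynomial ℂ, (∀ i, x i ∈ S i) → eval x (Θ h) = 0 := by
    intro x hx
    have h1 : ∀ i, ∃ a ∈ nodes e, Polynomial.C a * Polynomial.X = x i := fun i =>
      Finset.mem_image.mp (hx i)
    choose a ha hax using h1
    have h2 : eval x (Θ h) = aeval (Fin.snoc x Polynomial.X : Fin (m + 1) → Polynomial ℂ) h := by
      have : (eval x).comp Θ.toRingHom =
          (aeval (Fin.snoc x Polynomial.X : Fin (m + 1) → Polynomial ℂ)).toRingHom := by
        apply MvPolynomial.ringHom_ext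
        · intro r
          simp [Θ]
        · intro i
          refine Fin.lastCases ?_ (fun j => ?_) i
          · simp [Θ]
          · simp [Θ]
      exact DFunLike.congr_fun this h
    have h3 : ∀ i, (Fin.snoc x Polynomial.X : Fin (m + 1) → Polynomial ℂ) i =
        Polynomial.C (pt a i) * Polynomial.X := by
      intro i
      refine Fin.lastCases ?_ (fun j => ?_) i
      · rw [pt_last]; simp
      · rw [pt_castSucc, hax]; simp
    have h4 : aeval (Fin.snoc x Polynomial.X : Fin (m + 1) → Polynomial ℂ) h =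
        Polynomial.C (eval (pt a) h) * Polynomial.X ^ s := by
      rw [aeval_def, eval₂_eq', eval_eq', map_sum, Finset.sum_mul]
      refine Finset.sum_congr rfl fun α hα => ?_
      have h5 : α.degree = s := by
        by_contra h5
        exact (mem_support_iff.mp hα) (hh.coeff_eq_zero h5)
      rw [Finsupp.degree_eq_sum] at h5
      simp only [h3, mul_pow]
      rw [Finset.prod_mul_distrib, Finset.prod_pow_eq_pow_sum, h5, map_mul, map_prod]
      simp only [map_pow]
      rw [mul_assoc]
      rfl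
    rw [h2, h4, hv a (Fintype.mem_piFinset.mpr ha), map_zero, zero_mul]
  obtain ⟨H, _, hH⟩ := combinatorial_nullstellensatz_exists_linearCombination S
    (fun i => ⟨_, Finset.mem_image_of_mem _ (zero_mem_nodes e)⟩) (Θ h) hev
  have h6 := congrArg Ξ hH
  rw [hΞΘ] at h6
  rw [h6, Finsupp.linearCombination_apply, Finsupp.sum, map_sum]
  refine Ideal.sum_mem _ fun i _ => ?_
  rw [smul_eq_mul, map_mul]
  refine Ideal.mul_mem_left _ _ (Ideal.subset_span ⟨i, ?_⟩)
  rw [Finset.prod_image fun a _ b _ hab => hinj hab, map_prod]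
  have h7 := prod_nodes (A := MvPolynomial (Fin (m + 1)) ℂ) he (X i.castSucc) (X (Fin.last m))
  unfold gen
  rw [← h7]
  refine Finset.prod_congr rfl fun a _ => ?_
  simp [Ξ, algebraMap_eq]

end

end Pool.Agent.H964R2.Disc
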