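import Pool.Agent.H964R2.Disc.Node

/-!
The product of the discriminant and the associated form extends.
-/

open MvPolynomial Pool.Agent.Helper56.Disc Filter Topology

namespace Pool.Agent.H964R2.Disc

noncomputable section

variable {m : ℕ}

theorem exists_c (m e : ℕ) (he : 2 ≤ e) : ∃ c : Fin m → ℂ, (∀ i, c i ≠ 0) ∧
    ∀ p ∈ grid m e, p ≠ 0 → gv e c 0 p ≠ 0 := by
  classical
  let Q : MvPolynomial (Fin m) ℂ := (∏ i, X i) *
    ∏ p ∈ (grid m e).erase 0, ∑ i, C (p i ^ 2) * X i
  have hQ : Q ≠ 0 := by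
    refine mul_ne_zero (Finset.prod_ne_zero_iff.mpr fun i _ => X_ne_zero i)
      (Finset.prod_ne_zero_iff.mpr fun p hp h0 => ?_)
    have h1 := Finset.ne_of_mem_erase hp
    obtain ⟨i, hi⟩ := Function.ne_iff.mp h1
    have h2 := congrArg (eval (Pi.single i 1)) h0
    rw [map_sum, map_zero, Finset.sum_eq_single i] at h2
    · rw [map_mul, eval_C, eval_X, Pi.single_eq_same, mul_one] at h2
      exact hi (by simpa using h2)
    · intro j _ hj
      rw [map_mul, eval_X, Pi.single_eq_of_ne hj, mul_zero]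
    · intro h
      exact absurd (Finset.mem_univ _) h
  obtain ⟨c, hc⟩ : ∃ c, eval c Q ≠ 0 := by
    by_contra hcon
    push Not at hcon
    exact hQ (MvPolynomial.funext fun c => by rw [hcon c, map_zero])
  simp only [Q, map_mul, map_prod, map_sum, eval_X, eval_C] at hc
  refine ⟨c, fun i => ?_, fun p hp hp0 => ?_⟩
  · exact (Finset.prod_ne_zero_iff.mp (left_ne_zero_of_mul hc)) i (Finset.mem_univ i)
  · have h1 := (Finset.prod_ne_zero_iff.mp (right_ne_zero_of_mul hc)) p
      (Finset.mem_erase.mpr ⟨hp0, hp⟩)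
    unfold gv
    have h2 : ((e : ℂ) + 1) ≠ 0 := by exact_mod_cast Nat.succ_ne_zero e
    have h3 : ((e : ℂ) - 1) ≠ 0 := by
      rw [sub_ne_zero]
      exact_mod_cast (by omega : e ≠ 1)
    have h4 : ∑ i, c i * p i ^ 2 ≠ 0 := by
      intro h5
      apply h1
      rw [← h5]
      exact Finset.sum_congr rfl fun i _ => mul_comm _ _
    rw [zero_sub]
    exact mul_ne_zero h2 (neg_ne_zero.mpr (mul_ne_zero h3 h4))

/-- coefficient vectors -/
def cf (e : ℕ) (c : Fin m → ℂ) (t : ℂ) : Mon (m + 1) (e + 1) → ℂ := cv (fam e c t)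

theorem form_cf {e : ℕ} (he : 2 ≤ e) (c : Fin m → ℂ) (t : ℂ) : form (cf e c t) = fam e c t :=
  form_cv _ (fam_homog he c t)

theorem cf_eq (e : ℕ) (c : Fin m → ℂ) (t : ℂ) (α : Mon (m + 1) (e + 1)) :
    cf e c t α = cf e c 0 α +
      t * (cv (X (Fin.last m) ^ (e + 1)) : Mon (m + 1) (e + 1) → ℂ) α := by
  unfold cf cv fam
  rw [coeff_add, coeff_add, coeff_C_mul, coeff_C_mul, zero_mul, add_zero]

/-- restriction of a polynomial to the family -/
def res (e : ℕ) (c : Fin m → ℂ) : MvPolynomial (Mon (m + 1) (e + 1)) ℂ →ₐ[ℂ] Polynomial ℂ :=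
  aeval fun α => Polynomial.C (cf e c 0 α) + Polynomial.X *
    Polynomial.C ((cv (X (Fin.last m) ^ (e + 1)) : Mon (m + 1) (e + 1) → ℂ) α)

theorem eval_res (e : ℕ) (c : Fin m → ℂ) (t : ℂ) (Q : MvPolynomial (Mon (m + 1) (e + 1)) ℂ) :
    (res e c Q).eval t = eval (cf e c t) Q := by
  have h1 : (Polynomial.evalRingHom t).comp (res e c).toRingHom = eval (cf e c t) := by
    apply MvPolynomial.ringHom_ext
    · intro r
      simp [res]
    · intro α
      simp only [res, AlgHom.toRingHom_eq_coe, RingHom.coe_comp, RingHom.coe_coe,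
        Function.comp_apply, aeval_X, Polynomial.coe_evalRingHom, Polynomial.eval_add,
        Polynomial.eval_C, Polynomial.eval_mul, Polynomial.eval_X, eval_X]
      exact (cf_eq e c t α).symm
  exact DFunLike.congr_fun h1 Q

theorem exists_minor {e : ℕ} (he : 2 ≤ e) (hm : 1 ≤ m) {a : ℕ}
    (h : a + (e + 1 - 1) = (m + 1) * (e + 1 - 2)) (α0 : Mon (m + 1) ((m + 1) * (e + 1 - 2)))
    [Nonempty (Mon (m + 1) a)] (Δ : MvPolynomial (Mon (m + 1) (e + 1)) ℂ)
    (hΔ : IsDiscriminant Δ) :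
    ∃ J0 : Mon (m + 1) ((m + 1) * (e + 1 - 2)) → Fin (m + 1) × Mon (m + 1) a,
      ¬ Δ ^ 2 ∣ MM α0 J0 := by
  classical
  obtain ⟨c, hc, hG⟩ := exists_c m e he
  have he1 : e + 1 - 2 = e - 1 := by omega
  have hT' : (m + 1) * (e - 1) = ((m + 1) * (e + 1 - 2)) := by rw [he1]
  have hzero : (0 : Fin m → ℂ) ∈ grid m e := Fintype.mem_piFinset.mpr fun _ => zero_mem_nodes e
  let xT : MvPolynomial (Fin (m + 1)) ℂ := X (Fin.last m) ^ ((m + 1) * (e + 1 - 2))
  have hxT : xT.IsHomogeneous ((m + 1) * (e + 1 - 2)) := by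
    have := (isHomogeneous_X ℂ (Fin.last m)).pow ((m + 1) * (e + 1 - 2))
    rwa [one_mul] at this
  let x : Mon (m + 1) ((m + 1) * (e + 1 - 2)) → ℂ := cv xT
  have hx : form x = xT := form_cv _ hxT
  have hevx : ∀ p : Fin m → ℂ, eval (pt p) xT = 1 := by
    intro p
    simp only [xT, map_pow, eval_X, pt_last, one_pow]
  -- the point `0` is a zero of the ideal of the degenerate member
  have hJ0 : ∀ g ∈ jacIdeal (fam e c 0), eval (pt 0) g = 0 := by
    intro g hg
    have : jacIdeal (fam e c 0) ≤ RingHom.ker (eval (pt (0 : Fin m → ℂ))) := by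
      unfold jacIdeal
      rw [Ideal.span_le]
      rintro _ ⟨i, rfl⟩
      change eval (pt 0) (pderiv i (fam e c 0)) = 0
      refine Fin.lastCases ?_ (fun j => ?_) i
      · rw [eval_last he, gv_zero, mul_zero]
      · exact eval_castSucc he c 0 hzero j
    exact this hg
  have h1 : x ∉ W ((m + 1) * (e + 1 - 2)) a (cf e c 0) := by
    intro hmem
    have h2 := form_mem_of_mem_W h _ _ hmem
    rw [hx, form_cf he] at h2
    have h3 := hJ0 _ h2
    rw [hevx] at h3
    exact one_ne_zero h3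
  have h2 : ∀ y : Mon (m + 1) ((m + 1) * (e + 1 - 2)) → ℂ, y ∈ W ((m + 1) * (e + 1 - 2)) a (cf e c 0) ⊔ Submodule.span ℂ {x} := by
    intro y
    have h3 := node he hm c hc hG (h := form y) (by rw [hT']; exact form_isHomogeneous y)
    rw [hT'] at h3
    have h4 : y - eval (pt 0) (form y) • x ∈ W ((m + 1) * (e + 1 - 2)) a (cf e c 0) := by
      apply mem_W_of_form_mem h
      rw [form_cf he]
      have e1 : y - eval (pt 0) (form y) • x = y + (-eval (pt 0) (form y)) • x := by
        rw [neg_smul, sub_eq_add_neg]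
      rw [e1, form_add, form_smul, hx, map_neg, neg_mul, ← sub_eq_add_neg]
      exact h3
    rw [Submodule.mem_sup]
    exact ⟨_, h4, eval (pt 0) (form y) • x,
      Submodule.smul_mem _ _ (Submodule.mem_span_singleton_self x), sub_add_cancel _ _⟩
  have hne : Nonempty (Fin (m + 1) × Mon (m + 1) a) := ⟨(0, Classical.arbitrary _)⟩
  obtain ⟨J0, hJ⟩ := exists_det_ne_zero (fun κ : Fin (m + 1) × Mon (m + 1) a =>
      (row (cf e c 0) κ : Mon (m + 1) ((m + 1) * (e + 1 - 2)) → ℂ)) x α0 h1 h2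
  have hL0 : eval (cf e c 0) (LL α0 J0 x) ≠ 0 := by
    rw [eval_LL]
    exact hJ
  refine ⟨J0, ?_⟩
  rintro ⟨Q, hQ⟩
  apply hL0
  -- the polynomials in one variable
  have hD0 : (res e c Δ).IsRoot 0 := by
    rw [Polynomial.IsRoot, eval_res, hΔ.2, form_cf he]
    intro hnd
    have h3 := hnd (pt 0) (fun i => hJ0 _ (Ideal.subset_span ⟨i, rfl⟩))
    have h4 := congrFun h3 (Fin.last m)
    rw [pt_last] at h4
    exact one_ne_zero h4
  obtain ⟨D', hD'⟩ := Polynomial.dvd_iff_isRoot.mpr hD0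
  rw [map_zero, sub_zero] at hD'
  let M' : Polynomial ℂ := D' ^ 2 * res e c Q
  have hM : ∀ t, eval (cf e c t) (MM α0 J0) = t ^ 2 * M'.eval t := by
    intro t
    rw [← eval_res, hQ, map_mul, map_pow, hD']
    simp only [M', Polynomial.eval_mul, Polynomial.eval_pow, Polynomial.eval_X]
    ring
  let κ : ℂ := ((grid m e).card : ℂ) * ((e : ℂ) * ∏ i, (2 * ((e : ℂ) + 1) * c i))
  have hκ : κ ≠ 0 := by
    have h3 : ((e : ℂ) + 1) ≠ 0 := by exact_mod_cast Nat.succ_ne_zero e
    have h4 : (e : ℂ) ≠ 0 := by exact_mod_cast (by omega : e ≠ 0)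
    refine mul_ne_zero ?_ (mul_ne_zero h4 (Finset.prod_ne_zero_iff.mpr fun i _ =>
      mul_ne_zero (mul_ne_zero two_ne_zero h3) (hc i)))
    exact_mod_cast (Finset.card_pos.mpr ⟨0, hzero⟩).ne'
  -- the relation for nondegenerate members
  have hrel : ∀ t, (∀ p ∈ grid m e, gv e c t p ≠ 0) →
      eval (cf e c t) (LL α0 J0 x) * κ = eval (cf e c t) (MM α0 J0) *
        ∑ p ∈ grid m e, 1 / (gv e c t p * wtp e p) := by
    intro t ht
    have hnd : Nondegenerate (form (cf e c t)) := by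
      rw [form_cf he]
      exact nondeg he c hc t ht
    obtain ⟨v, hv'⟩ := (socle_form (by omega) _ hnd).2 x
    rw [eval_LL, eval_MM, Lam_eq (by omega) h α0 J0 _ hnd x v hv']
    have h3 : lam e c t (form x - C v * hess (form (cf e c t))) = 0 := by
      apply lam_jac he hm c t ht
      · rw [hT']
        refine (form_isHomogeneous x).sub ?_
        exact (hess_isHomogeneous _ (form_isHomogeneous _)).C_mul v
      · rw [form_cf he] at hv' ⊢
        exact hv'
    have h4 : lam e c t (form x - C v * hess (form (cf e c t))) =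
        (∑ p ∈ grid m e, 1 / (gv e c t p * wtp e p)) - v * κ := by
      have h5 := lam_hess he c t ht
      change _ = κ at h5
      rw [← h5]
      unfold lam
      rw [Finset.mul_sum, ← Finset.sum_sub_distrib]
      refine Finset.sum_congr rfl fun p _ => ?_
      rw [map_sub, map_mul, eval_C, hx, hevx, form_cf he]
      ring
    rw [h4] at h3
    have h5 : v * κ = ∑ p ∈ grid m e, 1 / (gv e c t p * wtp e p) := (sub_eq_zero.mp h3).symm
    rw [← h5]
    ring
  -- the auxiliary function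
  let F : ℂ → ℂ := fun t => (res e c (LL α0 J0 x)).eval t * κ -
    t * M'.eval t * (1 / (((e : ℂ) + 1) * wtp e (0 : Fin m → ℂ)) +
      ∑ p ∈ (grid m e).erase 0, t / (gv e c t p * wtp e p))
  have hgc : ∀ p : Fin m → ℂ, Continuous fun t => gv e c t p := by
    intro p
    unfold gv
    fun_prop
  have hFc : ContinuousAt F 0 := by
    refine ContinuousAt.sub (ContinuousAt.mul (Polynomial.continuous _).continuousAt
      continuousAt_const) (ContinuousAt.mul (ContinuousAt.mul continuousAt_id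
        (Polynomial.continuous _).continuousAt) (ContinuousAt.add continuousAt_const ?_))
    refine tendsto_finsetSum _ fun p hp => ?_
    have hp' := Finset.mem_erase.mp hp
    refine ContinuousAt.div continuousAt_id (ContinuousAt.mul (hgc p).continuousAt
      continuousAt_const) (mul_ne_zero (hG p hp'.2 hp'.1) (wtp_ne_zero p))
  have he3 : ((e : ℂ) + 1) ≠ 0 := by exact_mod_cast Nat.succ_ne_zero e
  have hev : ∀ᶠ t in 𝓝[≠] (0 : ℂ), F t = 0 := by
    have h3 : ∀ᶠ t in 𝓝[≠] (0 : ℂ), ∀ p ∈ grid m e, gv e c t p ≠ 0 := by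
      rw [Finset.eventually_all]
      intro p hp
      by_cases hp0 : p = 0
      · subst hp0
        filter_upwards [self_mem_nhdsWithin] with t ht
        rw [gv_zero]
        exact mul_ne_zero he3 ht
      · exact ((hgc p).continuousAt.eventually_ne (hG p hp hp0)).filter_mono nhdsWithin_le_nhds
    filter_upwards [h3, self_mem_nhdsWithin] with t ht ht0
    have ht0' : t ≠ 0 := ht0
    have h4 := hrel t ht
    have h5 : t * ∑ p ∈ grid m e, 1 / (gv e c t p * wtp e p) =
        1 / (((e : ℂ) + 1) * wtp e (0 : Fin m → ℂ)) +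
          ∑ p ∈ (grid m e).erase 0, t / (gv e c t p * wtp e p) := by
      rw [← Finset.add_sum_erase _ _ hzero, mul_add, gv_zero, Finset.mul_sum]
      congr 1
      · have := wtp_ne_zero (e := e) (0 : Fin m → ℂ)
        field_simp
      · refine Finset.sum_congr rfl fun p _ => ?_
        rw [mul_one_div]
    simp only [F]
    rw [eval_res, h4, hM, ← h5]
    ring
  have hF0 : F 0 = 0 := by
    have h3 : Tendsto F (𝓝[≠] 0) (𝓝 (F 0)) := hFc.tendsto.mono_left nhdsWithin_le_nhds
    have h4 : Tendsto F (𝓝[≠] 0) (𝓝 0) :=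
      (tendsto_congr' hev).mpr tendsto_const_nhds
    exact tendsto_nhds_unique h3 h4
  simp only [F, zero_mul, sub_zero] at hF0
  rw [eval_res] at hF0
  exact (mul_eq_zero.mp hF0).resolve_right hκ

/-- The product of the discriminant and the associated form extends to all forms. -/
theorem powerExtends {n d : ℕ} (hn : 2 ≤ n) (hd : 3 ≤ d) (Δ : MvPolynomial (Mon n d) ℂ)
    (hΔ : IsDiscriminant Δ) : PowerExtends Δ 1 := by
  obtain ⟨m, rfl⟩ : ∃ m, n = m + 1 := ⟨n - 1, by omega⟩
  obtain ⟨e, rfl⟩ : ∃ e, d = e + 1 := ⟨d - 1, by omega⟩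
  apply powerExtends_one (by omega) Δ
  have h0 : e ≤ (m + 1) * (e + 1 - 2) := by
    have h1 : 2 * (e + 1 - 2) ≤ (m + 1) * (e + 1 - 2) := Nat.mul_le_mul_right _ (by omega)
    omega
  obtain ⟨a, ha⟩ : ∃ a, a + (e + 1 - 1) = (m + 1) * (e + 1 - 2) :=
    ⟨(m + 1) * (e + 1 - 2) - e, by omega⟩
  have hne : ∀ b : ℕ, Nonempty (Mon (m + 1) b) := fun b =>
    ⟨⟨Finsupp.single 0 b, mem_mon _ (Finsupp.degree_single _ _)⟩⟩
  have := hne a
  obtain ⟨α0⟩ := hne ((m + 1) * (e + 1 - 2))
  obtain ⟨J0, hJ0⟩ := exists_minor (by omega) (by omega) ha α0 Δ hΔ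
  exact fun x => exists_extension (by omega) (by omega) ha α0 Δ hΔ J0 hJ0 x

end

end Pool.Agent.H964R2.Disc
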