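import Pool.Agent.H964R2.Disc.Family

/-!
The degenerate member of the family.
-/

open MvPolynomial Pool.Agent.Helper56.Disc

namespace Pool.Agent.H964R2.Disc

noncomputable section

variable {m : ℕ}

/-- the sum over the grid -/
def lam (e : ℕ) (c : Fin m → ℂ) (t : ℂ) (g : MvPolynomial (Fin (m + 1)) ℂ) : ℂ :=
  ∑ p ∈ grid m e, eval (pt p) g / (gv e c t p * wtp e p)

theorem lam_jac {e : ℕ} (he : 2 ≤ e) (hm : 1 ≤ m) (c : Fin m → ℂ) (t : ℂ)
    (hG : ∀ p ∈ grid m e, gv e c t p ≠ 0) {g : MvPolynomial (Fin (m + 1)) ℂ}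
    (hg : g.IsHomogeneous ((m + 1) * (e - 1))) (hgJ : g ∈ jacIdeal (fam e c t)) :
    lam e c t g = 0 := by
  have h0 : 1 ≤ m * (e - 1) := Nat.mul_pos hm (by omega)
  have h1 : (m + 1) * (e - 1) = (m * (e - 1) - 1) + e := by
    have : (m + 1) * (e - 1) = m * (e - 1) + (e - 1) := by ring
    omega
  obtain ⟨A, hA, hgA⟩ := exists_homogeneous_coeffs (fun i => pderiv i (fam e c t)) e
    (m * (e - 1) - 1) (fun i => (fam_homog he c t).pderiv) g (by rw [← h1]; exact hg) hgJ
  have h2 : lam e c t g = ∑ p ∈ grid m e, eval (pt p) (A (Fin.last m)) / wtp e p := by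
    unfold lam
    refine Finset.sum_congr rfl fun p hp => ?_
    rw [hgA, map_sum, Fin.sum_univ_castSucc, Finset.sum_eq_zero, zero_add, map_mul, eval_last he,
      mul_comm (eval (pt p) (A (Fin.last m))), mul_div_mul_left _ _ (hG p hp)]
    intro i _
    rw [map_mul, eval_castSucc he c t hp, mul_zero]
  rw [h2]
  exact sum_low he _ (hA _) (by omega)

theorem lam_hess {e : ℕ} (he : 2 ≤ e) (c : Fin m → ℂ) (t : ℂ)
    (hG : ∀ p ∈ grid m e, gv e c t p ≠ 0) :
    lam e c t (hess (fam e c t)) =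
      ((grid m e).card : ℂ) * ((e : ℂ) * ∏ i, (2 * ((e : ℂ) + 1) * c i)) := by
  unfold lam
  rw [← nsmul_eq_mul, ← Finset.sum_const]
  refine Finset.sum_congr rfl fun p hp => ?_
  rw [eval_hess he c t hp]
  have h1 := hG p hp
  have h2 := wtp_ne_zero (e := e) p
  field_simp

/-- the form which vanishes at all points of the grid but one -/
def bump (e : ℕ) (p : Fin m → ℂ) : MvPolynomial (Fin (m + 1)) ℂ :=
  ∏ i : Fin m, ∏ b ∈ (nodes e).erase (p i), (X i.castSucc - C b * X (Fin.last m))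

theorem bump_homog {e : ℕ} (he : 2 ≤ e) {p : Fin m → ℂ} (hp : p ∈ grid m e) :
    (bump e p).IsHomogeneous (m * (e - 1)) := by
  unfold bump
  have h1 : ∀ i : Fin m, (∏ b ∈ (nodes e).erase (p i), (X i.castSucc - C b * X (Fin.last m)) :
      MvPolynomial (Fin (m + 1)) ℂ).IsHomogeneous (e - 1) := by
    intro i
    have h2 := IsHomogeneous.prod ((nodes e).erase (p i))
      (fun b => (X i.castSucc - C b * X (Fin.last m) : MvPolynomial (Fin (m + 1)) ℂ))
      (fun _ => 1) (fun b _ => (isHomogeneous_X ℂ _).sub ((isHomogeneous_X ℂ _).C_mul b))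
    rwa [Finset.sum_const, Finset.card_erase_of_mem (Fintype.mem_piFinset.mp hp i),
      card_nodes he, smul_eq_mul, mul_one] at h2
  have h3 := IsHomogeneous.prod Finset.univ _ (fun _ => e - 1) (fun i _ => h1 i)
  rwa [Finset.sum_const, Finset.card_univ, Fintype.card_fin, smul_eq_mul] at h3

theorem eval_bump_self (e : ℕ) (p : Fin m → ℂ) : eval (pt p) (bump e p) = wtp e p := by
  unfold bump wtp wt
  simp only [map_prod, map_sub, map_mul, eval_X, eval_C, pt_castSucc, pt_last, mul_one]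

theorem eval_bump_ne {e : ℕ} {p q : Fin m → ℂ} (hq : q ∈ grid m e) (hpq : p ≠ q) :
    eval (pt q) (bump e p) = 0 := by
  obtain ⟨i, hi⟩ := Function.ne_iff.mp hpq
  unfold bump
  rw [map_prod]
  apply Finset.prod_eq_zero (Finset.mem_univ i)
  rw [map_prod]
  apply Finset.prod_eq_zero (i := q i)
    (Finset.mem_erase.mpr ⟨hi.symm, Fintype.mem_piFinset.mp hq i⟩)
  rw [map_sub, map_mul, eval_X, eval_X, eval_C, pt_castSucc, pt_last, mul_one, sub_self]

theorem exists_low {e : ℕ} (he : 2 ≤ e) (hm : 1 ≤ m) {p : Fin m → ℂ} (hp : p ∈ grid m e)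
    (hp0 : p ≠ 0) : ∃ A : MvPolynomial (Fin (m + 1)) ℂ, A.IsHomogeneous (m * (e - 1) - 1) ∧
      eval (pt p) A = wtp e p ∧ ∀ q ∈ grid m e, q ≠ p → q ≠ 0 → eval (pt q) A = 0 := by
  have h0 : 1 ≤ m * (e - 1) := Nat.mul_pos hm (by omega)
  have hz : (0 : Fin m → ℂ) ∈ grid m e := Fintype.mem_piFinset.mpr fun _ => zero_mem_nodes e
  have hmod : ∀ q ∈ grid m e, Ideal.Quotient.mk (Ideal.span {X (Fin.last m)}) (bump e q) =
      Ideal.Quotient.mk (Ideal.span {X (Fin.last m)})
        (∏ i : Fin m, (X i.castSucc : MvPolynomial (Fin (m + 1)) ℂ) ^ (e - 1)) := by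
    intro q hq
    unfold bump
    rw [map_prod, map_prod]
    refine Finset.prod_congr rfl fun i _ => ?_
    have h1 : Ideal.Quotient.mk (Ideal.span {X (Fin.last m)})
        (X (Fin.last m) : MvPolynomial (Fin (m + 1)) ℂ) = 0 :=
      Ideal.Quotient.eq_zero_iff_mem.mpr (Ideal.mem_span_singleton_self _)
    rw [map_prod, map_pow]
    simp only [map_sub, map_mul, h1, mul_zero, sub_zero]
    rw [Finset.prod_const, Finset.card_erase_of_mem (Fintype.mem_piFinset.mp hq i),
      card_nodes he]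
  have h1 : bump e p - bump e 0 ∈ Ideal.span {(X (Fin.last m) : MvPolynomial (Fin (m + 1)) ℂ)} := by
    rw [← Ideal.Quotient.eq_zero_iff_mem, map_sub, hmod p hp, hmod 0 hz, sub_self]
  obtain ⟨A, hA⟩ := Ideal.mem_span_singleton'.mp h1
  have h2 : (bump e p - bump e 0).IsHomogeneous (m * (e - 1) - 1 + 1) := by
    rw [Nat.sub_add_cancel h0]
    exact (bump_homog he hp).sub (bump_homog he hz)
  have h3 := homogeneousComponent_mul_of_isHomogeneous A (X (Fin.last m)) (m * (e - 1) - 1) 1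
    (isHomogeneous_X ℂ _)
  rw [hA, homogeneousComponent_eq_self h2] at h3
  have h4 : ∀ q : Fin m → ℂ, eval (pt q) (homogeneousComponent (m * (e - 1) - 1) A) =
      eval (pt q) (bump e p) - eval (pt q) (bump e 0) := by
    intro q
    rw [← map_sub, h3, map_mul, eval_X, pt_last, mul_one]
  refine ⟨homogeneousComponent (m * (e - 1) - 1) A, homogeneousComponent_isHomogeneous _ _, ?_, ?_⟩
  · rw [h4, eval_bump_self, eval_bump_ne hp (Ne.symm hp0), sub_zero]
  · intro q hq hqp hq0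
    rw [h4, eval_bump_ne hq (Ne.symm hqp), eval_bump_ne hq (Ne.symm hq0), sub_zero]

theorem gv_zero (e : ℕ) (c : Fin m → ℂ) (t : ℂ) : gv e c t 0 = ((e : ℂ) + 1) * t := by
  unfold gv
  simp

/-- At the member with a node every form of the critical degree is a multiple of the power of the
last variable modulo the Jacobian ideal. -/
theorem node {e : ℕ} (he : 2 ≤ e) (hm : 1 ≤ m) (c : Fin m → ℂ) (hc : ∀ i, c i ≠ 0)
    (hG : ∀ p ∈ grid m e, p ≠ 0 → gv e c 0 p ≠ 0) {h : MvPolynomial (Fin (m + 1)) ℂ}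
    (hh : h.IsHomogeneous ((m + 1) * (e - 1))) :
    h - C (eval (pt 0) h) * X (Fin.last m) ^ ((m + 1) * (e - 1)) ∈ jacIdeal (fam e c 0) := by
  classical
  have h0 : 1 ≤ m * (e - 1) := Nat.mul_pos hm (by omega)
  have h1 : (m + 1) * (e - 1) = (m * (e - 1) - 1) + e := by
    have : (m + 1) * (e - 1) = m * (e - 1) + (e - 1) := by ring
    omega
  have hA : ∀ p : Fin m → ℂ, ∃ A : MvPolynomial (Fin (m + 1)) ℂ,
      A.IsHomogeneous (m * (e - 1) - 1) ∧ (p ∈ grid m e → p ≠ 0 → eval (pt p) A = wtp e p ∧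
        ∀ q ∈ grid m e, q ≠ p → q ≠ 0 → eval (pt q) A = 0) := by
    intro p
    by_cases hp : p ∈ grid m e ∧ p ≠ 0
    · obtain ⟨A, hA1, hA2⟩ := exists_low he hm hp.1 hp.2
      exact ⟨A, hA1, fun _ _ => hA2⟩
    · exact ⟨0, isHomogeneous_zero _ _ _, fun h1 h2 => absurd ⟨h1, h2⟩ hp⟩
  choose A hA1 hA2 using hA
  set T := (m + 1) * (e - 1) with hT
  let k : (Fin m → ℂ) → ℂ := fun p => (eval (pt p) h - eval (pt 0) h) / (wtp e p * gv e c 0 p)
  let R : MvPolynomial (Fin (m + 1)) ℂ := (∑ p ∈ (grid m e).erase 0, C (k p) * A p) *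
    pderiv (Fin.last m) (fam e c 0)
  have hRJ : R ∈ jacIdeal (fam e c 0) :=
    Ideal.mul_mem_left _ _ (Ideal.subset_span ⟨Fin.last m, rfl⟩)
  have hRh : R.IsHomogeneous T := by
    rw [h1]
    exact (IsHomogeneous.sum _ _ _ fun p _ => (hA1 p).C_mul (k p)).mul
      (fam_homog he c 0).pderiv
  have hE : h - C (eval (pt 0) h) * X (Fin.last m) ^ T - R ∈
      Ideal.span (Set.range (gen (m := m) e)) := by
    apply mem_of_vanish he (s := T)
    · refine (hh.sub ?_).sub hRh
      have := ((isHomogeneous_X ℂ (Fin.last m)).pow T).C_mul (eval (pt (0 : Fin m → ℂ)) h)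
      simpa using this
    · intro q hq
      rw [map_sub, map_sub, map_mul, map_mul, map_pow, eval_C, eval_X, pt_last, one_pow, mul_one,
        eval_last he, map_sum]
      by_cases hq0 : q = 0
      · subst hq0
        rw [gv_zero, mul_zero, mul_zero, sub_zero, sub_self]
      · rw [Finset.sum_eq_single q]
        · rw [map_mul, eval_C, (hA2 q hq hq0).1]
          have h2 := hG q hq hq0
          have h3 := wtp_ne_zero (e := e) q
          simp only [k]
          field_simp
          ring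
        · intro p hp hpq
          have hp' := Finset.mem_erase.mp hp
          rw [map_mul, (hA2 p hp'.2 hp'.1).2 q hq (Ne.symm hpq) hq0, mul_zero]
        · intro h
          exact absurd (Finset.mem_erase.mpr ⟨hq0, hq⟩) h
  have hgen : Ideal.span (Set.range (gen (m := m) e)) ≤ jacIdeal (fam e c 0) := by
    rw [Ideal.span_le]
    rintro _ ⟨i, rfl⟩
    have h2 := pderiv_fam_castSucc he c 0 i
    have h3 : (2 * ((e : ℂ) + 1) * c i) ≠ 0 := by
      have : ((e : ℂ) + 1) ≠ 0 := by exact_mod_cast Nat.succ_ne_zero e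
      simpa [this] using hc i
    have h4 : gen e i = C (2 * ((e : ℂ) + 1) * c i)⁻¹ * pderiv i.castSucc (fam e c 0) := by
      rw [h2, ← mul_assoc, ← map_mul, inv_mul_cancel₀ h3, map_one, one_mul]
    change gen e i ∈ _
    rw [h4]
    exact Ideal.mul_mem_left _ _ (Ideal.subset_span ⟨_, rfl⟩)
  have h5 := Ideal.add_mem _ (hgen hE) hRJ
  rwa [sub_add_cancel] at h5

end

end Pool.Agent.H964R2.Disc
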